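import Pool.Agent.H71.ES.CDef

/-! # ES.CNrm : the norm forms: base change and product over the roots (about 90 lines)

`nrm_map` is `Polynomial.resultant_map_map`.  `NA_map` etc. for a `K`-algebra homomorphism: `map_map` and `AlgHom.comp_algebraMap`.
`nrm_prod`: `Polynomial.resultant_eq_prod_eval` (valid over domains, `f.Splits`), `leadingCoeff = 1`.
`NN_prod`: the same over the domain `F[X]` for `q.map C` (`(q.map C).Splits`, its roots are `q.roots.map C`: `Polynomial.Splits.roots_map` or write
`q = (q.roots.map (X - C ·)).prod`); the degree of `(Fab a b).map _` in `X` is `≤ 12 n`. -/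

namespace H71.ES

open Polynomial H68.BB

section
variable {R S : Type} [CommRing R] [CommRing S]

theorem nrm_map (f : R →+* S) (k N : ℕ) (q g : R[X]) : nrm k N (q.map f) (g.map f) = f (nrm k N q g) := by
  unfold nrm
  exact resultant_map_map _ _ _ _ _

theorem nrm_prod [IsDomain R] {k N : ℕ} {q g : R[X]} (hq : q.Monic) (hd : q.natDegree = k) (hs : q.Splits)
    (hg : g.natDegree ≤ N) : nrm k N q g = (q.roots.map (fun r => g.eval r)).prod := by
  unfold nrm
  rw [← hd, resultant_eq_prod_eval _ _ _ hg hs, hq.leadingCoeff, one_pow, one_mul]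

end

section
variable {K : Type} [Field K] {R S : Type} [CommRing R] [CommRing S] [Algebra K R] [Algebra K S]

theorem NA_map (f : R →ₐ[K] S) (n k : ℕ) (a : K[X]) (q : R[X]) :
    NA n k a (q.map (f : R →+* S)) = f (NA n k a q) := by
  unfold NA
  have h : a.map (algebraMap K S) = (a.map (algebraMap K R)).map (f : R →+* S) := by
    rw [Polynomial.map_map, AlgHom.comp_algebraMap]
  rw [h, nrm_map]
  rfl

theorem NB_map (f : R →ₐ[K] S) (n k : ℕ) (b : K[X]) (q : R[X]) :
    NB n k b (q.map (f : R →+* S)) = f (NB n k b q) := by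
  unfold NB
  have h : b.map (algebraMap K S) = (b.map (algebraMap K R)).map (f : R →+* S) := by
    rw [Polynomial.map_map, AlgHom.comp_algebraMap]
  rw [h, nrm_map]
  rfl

theorem NN_map (f : R →ₐ[K] S) (n k : ℕ) (a b : K[X]) (q : R[X]) :
    NN n k a b (q.map (f : R →+* S)) = (NN n k a b q).map (f : R →+* S) := by
  unfold NN
  have h1 : (Fab a b).map (mapRingHom (algebraMap K S)) =
      ((Fab a b).map (mapRingHom (algebraMap K R))).map (mapRingHom (f : R →+* S)) := by
    rw [Polynomial.map_map, mapRingHom_comp, AlgHom.comp_algebraMap]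
  have h2 : (q.map (f : R →+* S)).map (C : S →+* S[X]) =
      (q.map (C : R →+* R[X])).map (mapRingHom (f : R →+* S)) := by
    rw [Polynomial.map_map, Polynomial.map_map, mapRingHom_comp_C]
  rw [h1, h2, nrm_map]
  rfl

theorem Fab_natDegree {n : ℕ} {a b : K[X]} (ha : a.natDegree ≤ 4 * n) (hb : b.natDegree ≤ 6 * n) :
    (Fab a b).natDegree ≤ 12 * n := by
  unfold Fab
  have h1 : ((a.map (C : K →+* K[X])) ^ 3 * C ((X + 1) ^ 2)).natDegree ≤ 12 * n := by
    refine (natDegree_mul_le).trans ?_
    rw [natDegree_C, add_zero]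
    refine natDegree_pow_le.trans ?_
    have h := (natDegree_map_le (f := (C : K →+* K[X])) (p := a))
    omega
  have h2 : (4 * (b.map (C : K →+* K[X])) ^ 2 * C X).natDegree ≤ 12 * n := by
    refine (natDegree_mul_le).trans ?_
    rw [natDegree_C, add_zero]
    refine (natDegree_mul_le).trans ?_
    have h4 : (4 : K[X][X]).natDegree = 0 := natDegree_ofNat 4
    rw [h4, zero_add]
    refine natDegree_pow_le.trans ?_
    have h := (natDegree_map_le (f := (C : K →+* K[X])) (p := b))
    omega
  exact (natDegree_sub_le_of_le h1 h2).trans (by simp)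

end

section
variable {K : Type} [Field K] {F : Type} [Field F] [Algebra K F]

theorem NA_prod {n k : ℕ} {a : K[X]} (ha : a.natDegree ≤ 4 * n) {q : F[X]} (hq : q.Monic) (hd : q.natDegree = k)
    (hs : q.Splits) : NA n k a q = (q.roots.map (fun r => aeval r a)).prod := by
  unfold NA
  rw [nrm_prod hq hd hs (natDegree_map_le.trans ha)]
  congr 1
  refine Multiset.map_congr rfl fun r _ => ?_
  rw [eval_map, aeval_def]

theorem NB_prod {n k : ℕ} {b : K[X]} (hb : b.natDegree ≤ 6 * n) {q : F[X]} (hq : q.Monic) (hd : q.natDegree = k)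
    (hs : q.Splits) : NB n k b q = (q.roots.map (fun r => aeval r b)).prod := by
  unfold NB
  rw [nrm_prod hq hd hs (natDegree_map_le.trans hb)]
  congr 1
  refine Multiset.map_congr rfl fun r _ => ?_
  rw [eval_map, aeval_def]

theorem NN_prod {n k : ℕ} {a b : K[X]} (ha : a.natDegree ≤ 4 * n) (hb : b.natDegree ≤ 6 * n) {q : F[X]} (hq : q.Monic)
    (hd : q.natDegree = k) (hs : q.Splits) :
    NN n k a b q = (q.roots.map (fun r => C ((aeval r a) ^ 3) * (X + 1) ^ 2 - C (4 * (aeval r b) ^ 2) * X)).prod := by
  unfold NN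
  have hd' : (q.map (C : F →+* F[X])).natDegree = k := by
    rw [natDegree_map_eq_of_injective C_injective, hd]
  rw [nrm_prod (hq.map _) hd' (hs.map _) (natDegree_map_le.trans (Fab_natDegree ha hb)),
    hs.roots_map_of_injective C_injective, Multiset.map_map]
  congr 1
  refine Multiset.map_congr rfl fun r _ => ?_
  have key : ∀ c : K[X], eval (C r) ((c.map (C : K →+* K[X])).map (mapRingHom (algebraMap K F))) =
      C (aeval r c) := by
    intro c
    rw [Polynomial.map_map, mapRingHom_comp_C, ← Polynomial.map_map, eval_map, eval₂_at_apply,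
      eval_map, aeval_def]
  simp only [Function.comp_apply, Fab, Polynomial.map_sub, Polynomial.map_mul, Polynomial.map_pow,
    Polynomial.map_ofNat, map_C, eval_sub, eval_mul, eval_pow, eval_ofNat, eval_C, key,
    coe_mapRingHom, Polynomial.map_add, map_X, Polynomial.map_one, C_mul, C_pow]
  have h4 : (C (4 : F) : F[X]) = 4 := rfl
  rw [h4]

end

end H71.ES
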