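import Pool.Agent.H71.ES.CMap

/-! # ES.CCrv : the curve with undetermined coefficients: shape, palindromic conditions, naturality (about 150 lines)

`crv_nat`: `Polynomial.map` of a sum; `symp_map`.  `eqn_nat`: from `crv_nat` and `dfD_map` etc. applied to `Polynomial.mapAlgHom f : R[X] →ₐ[K] S[X]`
(the underlying ring homomorphism is `mapRingHom f`).  `crv_zero`: all sums vanish. -/

namespace H71.ES

open Polynomial H68.BB

section
variable {R S : Type} [CommRing R] [CommRing S]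

theorem symp_map {d m : ℕ} {e : R} (c : Fin m → R) (f : R →+* S) :
    (symp d e c).map f = symp d (f e) (fun i => f (c i)) := by
  simp [symp, Polynomial.map_sum]

/-- if all `i < m` satisfy `i ≤ d` the degree is `≤ d` -/
theorem symp_natDegree {d m : ℕ} {e : R} (c : Fin m → R) (hm : m ≤ d + 1) : (symp d e c).natDegree ≤ d := by
  unfold symp
  apply natDegree_sum_le_of_forall_le
  intro i _
  have hi : (i : ℕ) ≤ d := by have := i.2; omega
  refine (natDegree_C_mul_le _ _).trans ((natDegree_add_le _ _).trans (max_le ?_ ?_))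
  · exact (natDegree_X_pow_le _).trans hi
  · exact (natDegree_C_mul_le _ _).trans ((natDegree_X_pow_le _).trans (Nat.sub_le _ _))

theorem symp_pal {d m : ℕ} {e : R} (he : e ^ 2 = 1) (c : Fin m → R) (hm : m ≤ d + 1) {i : ℕ} (hi : i ≤ d) :
    (symp d e c).coeff (d - i) = e * (symp d e c).coeff i := by
  unfold symp
  rw [finsetSum_coeff, finsetSum_coeff, Finset.mul_sum]
  refine Finset.sum_congr rfl fun j _ => ?_
  have hj : (j : ℕ) ≤ d := by have := j.2; omega
  rw [coeff_C_mul, coeff_C_mul, coeff_add, coeff_add, coeff_C_mul, coeff_C_mul, coeff_X_pow, coeff_X_pow,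
    coeff_X_pow, coeff_X_pow]
  have h1 : (d - i = (j : ℕ)) ↔ (i = d - (j : ℕ)) := by omega
  have h2 : (d - i = d - (j : ℕ)) ↔ (i = (j : ℕ)) := by omega
  simp only [h1, h2]
  have he' : e * e = 1 := by rw [← sq, he]
  generalize (if i = d - (j : ℕ) then (1 : R) else 0) = A
  generalize (if i = (j : ℕ) then (1 : R) else 0) = B
  linear_combination (-(c j) * A) * he'

end

section
variable {K : Type} [Field K] {R S : Type} [CommRing R] [CommRing S] [Algebra K R] [Algebra K S]

theorem crv_monic [Nontrivial R] {n k : ℕ} {m0 : Mdl K} (hq : m0.q.Monic) (hd : m0.q.natDegree = k) (z : UU n k → R) :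
    (crv n k m0 z).q.Monic ∧ (crv n k m0 z).q.natDegree = k := by
  have h1 : (m0.q.map (algebraMap K R[X])).Monic := hq.map _
  have h2 : (m0.q.map (algebraMap K R[X])).natDegree = k := by rw [hq.natDegree_map, hd]
  have h3 : degree (∑ i : Fin k, C (C (z (.inl i)) * X) * X ^ (i : ℕ) : R[X][X]) < k :=
    degree_sum_fin_lt (fun i : Fin k => C (z (.inl i)) * X)
  have h4 : degree (∑ i : Fin k, C (C (z (.inl i)) * X) * X ^ (i : ℕ) : R[X][X]) <
      degree (m0.q.map (algebraMap K R[X])) := by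
    rw [degree_eq_natDegree h1.ne_zero, h2]
    exact h3
  refine ⟨h1.add_of_left h4, ?_⟩
  show (m0.q.map (algebraMap K R[X]) + ∑ i : Fin k, C (C (z (.inl i)) * X) * X ^ (i : ℕ)).natDegree = k
  rw [natDegree_add_eq_left_of_degree_lt h4, h2]

private theorem pal_sum {N d m : ℕ} {e : R[X]} (he : e ^ 2 = 1) (c : Fin N → Fin m → R[X]) (hm : m ≤ d + 1) :
    (∑ j : Fin N, C (X ^ ((j : ℕ) + 1) : R[X]) * symp d e (c j)).natDegree ≤ d ∧
    ∀ i ≤ d, (∑ j : Fin N, C (X ^ ((j : ℕ) + 1) : R[X]) * symp d e (c j)).coeff (d - i) =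
      e * (∑ j : Fin N, C (X ^ ((j : ℕ) + 1) : R[X]) * symp d e (c j)).coeff i := by
  constructor
  · apply natDegree_sum_le_of_forall_le
    intro j _
    exact (natDegree_C_mul_le _ _).trans (symp_natDegree _ hm)
  · intro i hi
    rw [finsetSum_coeff, finsetSum_coeff, Finset.mul_sum]
    refine Finset.sum_congr rfl fun j _ => ?_
    rw [coeff_C_mul, coeff_C_mul, symp_pal he _ hm hi]
    ring

private theorem pal_add {d : ℕ} {e : R[X]} {p q : R[X][X]} (hp : p.natDegree ≤ d) (hq : q.natDegree ≤ d)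
    (hp' : ∀ i ≤ d, p.coeff (d - i) = e * p.coeff i) (hq' : ∀ i ≤ d, q.coeff (d - i) = e * q.coeff i) :
    (p + q).natDegree ≤ d ∧ ∀ i ≤ d, (p + q).coeff (d - i) = e * (p + q).coeff i := by
  refine ⟨(natDegree_add_le _ _).trans (max_le hp hq), fun i hi => ?_⟩
  rw [coeff_add, coeff_add, hp' i hi, hq' i hi]
  ring

/-- palindromic (for `k = 0` the hypothesis `0 < k` is needed for `s`) -/
theorem crv_pal {n k : ℕ} {m0 : Mdl K} (hp : Pal k m0) (z : UU n k → R) : Pal k (crv n k m0 z) := by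
  have hm := hp.map (algebraMap K R[X])
  have he1 : (((-1) ^ k : R[X])) ^ 2 = 1 := by
    rw [← pow_mul, mul_comm, pow_mul]
    simp
  have he2 : ((-(-1) ^ k : R[X])) ^ 2 = 1 := by
    rw [neg_sq]
    exact he1
  have ht := pal_sum (N := 6 * n) he1
    (fun j i => (C (z (.inr (.inr (.inr (j, .inl i))))) : R[X])) (d := k) (m := k / 2 + 1) (by omega)
  have hu := pal_sum (N := 6 * n) he2
    (fun j i => (C (z (.inr (.inr (.inr (j, .inr (.inl i)))))) : R[X])) (d := k) (m := (k + 1) / 2) (by omega)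
  have hv := pal_sum (N := 6 * n) he2
    (fun j i => (C (z (.inr (.inr (.inr (j, .inr (.inr (.inl i))))))) : R[X])) (d := k) (m := (k + 1) / 2)
    (by omega)
  have hs := pal_sum (N := 6 * n) he1
    (fun j i => (C (z (.inr (.inr (.inr (j, .inr (.inr (.inr i))))))) : R[X])) (d := k - 1) (m := k / 2)
    (by omega)
  have Ht := pal_add hm.dt ht.1 hm.pt ht.2
  have Hu := pal_add hm.du hu.1 hm.pu hu.2
  have Hv := pal_add hm.dv hv.1 hm.pv hv.2
  have Hs := pal_add hm.ds hs.1 hm.ps hs.2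
  exact ⟨Ht.1, Hu.1, Hv.1, Hs.1, Ht.2, Hu.2, Hv.2, Hs.2⟩

private theorem comp_alg (f : R →ₐ[K] S) :
    (mapRingHom (f : R →+* S)).comp (algebraMap K R[X]) = algebraMap K S[X] := by
  ext x
  simp [Polynomial.algebraMap_apply]

private theorem comp_alg' (f : R →ₐ[K] S) (x : K) :
    (algebraMap K R[X] x).map (f : R →+* S) = algebraMap K S[X] x := by
  simp [Polynomial.algebraMap_apply]

theorem crv_nat {n k : ℕ} (m0 : Mdl K) (z : UU n k → R) (f : R →ₐ[K] S) :
    (crv n k m0 z).map (mapRingHom (f : R →+* S)) = crv n k m0 (fun i => f (z i)) := by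
  have hb : ∀ p : K[X], (p.map (algebraMap K R[X])).map (mapRingHom (f : R →+* S)) =
      p.map (algebraMap K S[X]) := by
    intro p
    rw [Polynomial.map_map, comp_alg]
  have hs : ∀ (N d m : ℕ) (e : ℤ) (c : Fin N → Fin m → R),
      (∑ j : Fin N, C (X ^ ((j : ℕ) + 1) : R[X]) * symp d (e : R[X]) (fun i => C (c j i))).map
        (mapRingHom (f : R →+* S)) =
      ∑ j : Fin N, C (X ^ ((j : ℕ) + 1) : S[X]) * symp d (e : S[X]) (fun i => C (f (c j i))) := by
    intro N d m e c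
    rw [Polynomial.map_sum]
    refine Finset.sum_congr rfl fun j _ => ?_
    rw [Polynomial.map_mul, symp_map]
    simp
  have he1 : (((-1) ^ k : ℤ) : R[X]) = (-1) ^ k := by push_cast; rfl
  have he2 : ((-(-1) ^ k : ℤ) : R[X]) = -(-1) ^ k := by push_cast; rfl
  have he3 : (((-1) ^ k : ℤ) : S[X]) = (-1) ^ k := by push_cast; rfl
  have he4 : ((-(-1) ^ k : ℤ) : S[X]) = -(-1) ^ k := by push_cast; rfl
  have ht := hs (6 * n) k (k / 2 + 1) ((-1) ^ k) (fun j i => z (.inr (.inr (.inr (j, .inl i)))))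
  have hu := hs (6 * n) k ((k + 1) / 2) (-(-1) ^ k) (fun j i => z (.inr (.inr (.inr (j, .inr (.inl i))))))
  have hv := hs (6 * n) k ((k + 1) / 2) (-(-1) ^ k) (fun j i => z (.inr (.inr (.inr (j, .inr (.inr (.inl i)))))))
  have hS := hs (6 * n) (k - 1) (k / 2) ((-1) ^ k) (fun j i => z (.inr (.inr (.inr (j, .inr (.inr (.inr i)))))))
  rw [he1, he3] at ht hS
  rw [he2, he4] at hu hv
  refine Mdl.ext ?_ ?_ ?_ ?_ ?_ ?_ ?_
  · show (m0.q.map (algebraMap K R[X]) + ∑ i : Fin k, C (C (z (.inl i)) * X) * X ^ (i : ℕ)).map _ = _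
    rw [Polynomial.map_add, hb, Polynomial.map_sum]
    show _ = m0.q.map (algebraMap K S[X]) + ∑ i : Fin k, C (C (f (z (.inl i))) * X) * X ^ (i : ℕ)
    congr 1
    refine Finset.sum_congr rfl fun j _ => ?_
    simp
  · show (mapRingHom (f : R →+* S)) (algebraMap K R[X] m0.x +
      ∑ j : Fin (2 * n), C (z (.inr (.inl j))) * X ^ ((j : ℕ) + 1)) = _
    rw [map_add, map_sum]
    show _ = algebraMap K S[X] m0.x + ∑ j : Fin (2 * n), C (f (z (.inr (.inl j)))) * X ^ ((j : ℕ) + 1)
    congr 1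
    · exact comp_alg' f m0.x
    · refine Finset.sum_congr rfl fun j _ => ?_
      simp
  · show (mapRingHom (f : R →+* S)) (algebraMap K R[X] m0.y +
      ∑ j : Fin (3 * n), C (z (.inr (.inr (.inl j)))) * X ^ ((j : ℕ) + 1)) = _
    rw [map_add, map_sum]
    show _ = algebraMap K S[X] m0.y + ∑ j : Fin (3 * n), C (f (z (.inr (.inr (.inl j))))) * X ^ ((j : ℕ) + 1)
    congr 1
    · exact comp_alg' f m0.y
    · refine Finset.sum_congr rfl fun j _ => ?_
      simp
  · show (m0.s.map (algebraMap K R[X]) + ∑ j : Fin (6 * n), C (X ^ ((j : ℕ) + 1)) *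
      symp (k - 1) ((-1) ^ k) (fun i => C (z (.inr (.inr (.inr (j, .inr (.inr (.inr i))))))))).map _ = _
    rw [Polynomial.map_add, hb, hS]
    rfl
  · show (m0.t.map (algebraMap K R[X]) + ∑ j : Fin (6 * n), C (X ^ ((j : ℕ) + 1)) *
      symp k ((-1) ^ k) (fun i => C (z (.inr (.inr (.inr (j, .inl i))))))).map _ = _
    rw [Polynomial.map_add, hb, ht]
    rfl
  · show (m0.u.map (algebraMap K R[X]) + ∑ j : Fin (6 * n), C (X ^ ((j : ℕ) + 1)) *
      symp k (-(-1) ^ k) (fun i => C (z (.inr (.inr (.inr (j, .inr (.inl i)))))))).map _ = _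
    rw [Polynomial.map_add, hb, hu]
    rfl
  · show (m0.v.map (algebraMap K R[X]) + ∑ j : Fin (6 * n), C (X ^ ((j : ℕ) + 1)) *
      symp k (-(-1) ^ k) (fun i => C (z (.inr (.inr (.inr (j, .inr (.inr (.inl i))))))))).map _ = _
    rw [Polynomial.map_add, hb, hv]
    rfl

theorem eqn_nat {n k : ℕ} {a b : K[X]} (m0 : Mdl K) (z : UU n k → R) (f : R →ₐ[K] S) (e : EE n k) :
    eqn n k a b (crv n k m0 (fun i => f (z i))) e = f (eqn n k a b (crv n k m0 z) e) := by
  have hc := crv_nat (n := n) (k := k) m0 z f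
  rw [← hc]
  generalize crv n k m0 z = c
  have hD := dfD_map (n := n) (k := k) (a := a) (b := b) c (mapAlgHom f : R[X] →ₐ[K] S[X])
  have hT := dfT_map (n := n) (k := k) (b := b) c (mapAlgHom f : R[X] →ₐ[K] S[X])
  have hY := dfY_map (n := n) (k := k) (a := a) c (mapAlgHom f : R[X] →ₐ[K] S[X])
  rcases e with ⟨m, j⟩ | j | j
  · show ((dfD n k a b (c.map (mapRingHom (f : R →+* S)))).coeff m).coeff (j + 1) =
      f (((dfD n k a b c).coeff m).coeff (j + 1))
    refine (congrArg (fun p : S[X][X] => (p.coeff m).coeff ((j : ℕ) + 1)) hD).trans ?_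
    show (((dfD n k a b c).map (mapRingHom (f : R →+* S))).coeff m).coeff ((j : ℕ) + 1) = _
    rw [coeff_map]
    show (((dfD n k a b c).coeff m).map (f : R →+* S)).coeff ((j : ℕ) + 1) = _
    rw [coeff_map]
    rfl
  · show (dfT n k b (c.map (mapRingHom (f : R →+* S)))).coeff (j + 1) =
      f ((dfT n k b c).coeff (j + 1))
    refine (congrArg (fun p : S[X] => p.coeff ((j : ℕ) + 1)) hT).trans ?_
    show ((dfT n k b c).map (f : R →+* S)).coeff ((j : ℕ) + 1) = _
    rw [coeff_map]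
    rfl
  · show (dfY n k a (c.map (mapRingHom (f : R →+* S)))).coeff (j + 1) =
      f ((dfY n k a c).coeff (j + 1))
    refine (congrArg (fun p : S[X] => p.coeff ((j : ℕ) + 1)) hY).trans ?_
    show ((dfY n k a c).map (f : R →+* S)).coeff ((j : ℕ) + 1) = _
    rw [coeff_map]
    rfl

private theorem ev0_alg : (evalRingHom (0 : R)).comp (algebraMap K R[X]) = algebraMap K R := by
  ext x
  simp [Polynomial.algebraMap_apply]

theorem crv_at0 {n k : ℕ} (m0 : Mdl K) (z : UU n k → R) :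
    (crv n k m0 z).map (evalRingHom 0) = m0.map (algebraMap K R) := by
  have hb : ∀ p : K[X], (p.map (algebraMap K R[X])).map (evalRingHom (0 : R)) =
      p.map (algebraMap K R) := by
    intro p
    rw [Polynomial.map_map, ev0_alg]
  have hb' : ∀ x : K, (evalRingHom (0 : R)) (algebraMap K R[X] x) = algebraMap K R x := by
    intro x
    simp [Polynomial.algebraMap_apply]
  have hs : ∀ (N : ℕ) (w : Fin N → R[X][X]),
      (∑ j : Fin N, C (X ^ ((j : ℕ) + 1) : R[X]) * w j).map (evalRingHom (0 : R)) = 0 := by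
    intro N w
    rw [Polynomial.map_sum]
    refine Finset.sum_eq_zero fun j _ => ?_
    rw [Polynomial.map_mul, Polynomial.map_C]
    simp
  refine Mdl.ext ?_ ?_ ?_ ?_ ?_ ?_ ?_
  · show (m0.q.map (algebraMap K R[X]) + ∑ i : Fin k, C (C (z (.inl i)) * X) * X ^ (i : ℕ)).map _ = _
    rw [Polynomial.map_add, hb, Polynomial.map_sum]
    rw [Finset.sum_eq_zero (fun j _ => ?_), add_zero]
    · rfl
    · simp
  · show (evalRingHom (0 : R)) (algebraMap K R[X] m0.x +
      ∑ j : Fin (2 * n), C (z (.inr (.inl j))) * X ^ ((j : ℕ) + 1)) = _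
    rw [map_add, map_sum, hb', Finset.sum_eq_zero (fun j _ => ?_), add_zero]
    · rfl
    · simp
  · show (evalRingHom (0 : R)) (algebraMap K R[X] m0.y +
      ∑ j : Fin (3 * n), C (z (.inr (.inr (.inl j)))) * X ^ ((j : ℕ) + 1)) = _
    rw [map_add, map_sum, hb', Finset.sum_eq_zero (fun j _ => ?_), add_zero]
    · rfl
    · simp
  · show (m0.s.map (algebraMap K R[X]) + ∑ j : Fin (6 * n), C (X ^ ((j : ℕ) + 1)) * _).map _ = _
    rw [Polynomial.map_add, hb, hs, add_zero]
    rfl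
  · show (m0.t.map (algebraMap K R[X]) + ∑ j : Fin (6 * n), C (X ^ ((j : ℕ) + 1)) * _).map _ = _
    rw [Polynomial.map_add, hb, hs, add_zero]
    rfl
  · show (m0.u.map (algebraMap K R[X]) + ∑ j : Fin (6 * n), C (X ^ ((j : ℕ) + 1)) * _).map _ = _
    rw [Polynomial.map_add, hb, hs, add_zero]
    rfl
  · show (m0.v.map (algebraMap K R[X]) + ∑ j : Fin (6 * n), C (X ^ ((j : ℕ) + 1)) * _).map _ = _
    rw [Polynomial.map_add, hb, hs, add_zero]
    rfl

/-- the constant curve satisfies the equations -/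
theorem eqn_zero {n k : ℕ} {a b : K[X]} {m0 : Mdl K} (h : OnM n k a b m0) (e : EE n k) :
    eqn n k a b (crv n k m0 (fun _ => (0 : K))) e = 0 := by
  have hc : crv n k m0 (fun _ => (0 : K)) = m0.map ((Algebra.ofId K K[X] : K →ₐ[K] K[X]) : K →+* K[X]) := by
    have hz : ∀ d e (m : ℕ), symp d (e : K[X]) (fun _ : Fin m => (0 : K[X])) = 0 := by
      intro d e m
      simp [symp]
    refine Mdl.ext ?_ ?_ ?_ ?_ ?_ ?_ ?_ <;>
      simp [crv, Mdl.map, hz]
  rw [hc]
  have hD : dfD n k a b m0 = 0 := by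
    show m0.t ^ 2 + m0.u * m0.v - X * m0.s ^ 2 - NN n k a b m0.q = 0
    rw [h.det, sub_self]
  have hT : dfT n k b m0 = 0 := by
    show m0.t.eval (-1) - 2 ^ k * NB n k b m0.q = 0
    rw [h.tm1, sub_self]
  have hY : dfY n k a m0 = 0 := by
    show m0.y ^ 2 - m0.rhs n k a = 0
    rw [h.eqy, sub_self]
  have hD' := dfD_map (n := n) (k := k) (a := a) (b := b) m0 (Algebra.ofId K K[X])
  have hT' := dfT_map (n := n) (k := k) (b := b) m0 (Algebra.ofId K K[X])
  have hY' := dfY_map (n := n) (k := k) (a := a) m0 (Algebra.ofId K K[X])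
  rw [hD, Polynomial.map_zero] at hD'
  rw [hT, map_zero] at hT'
  rw [hY, map_zero] at hY'
  rcases e with ⟨m, j⟩ | j | j
  · show ((dfD n k a b (m0.map ((Algebra.ofId K K[X] : K →ₐ[K] K[X]) : K →+* K[X]))).coeff m).coeff (j + 1) = 0
    rw [hD']
    simp
  · show (dfT n k b (m0.map ((Algebra.ofId K K[X] : K →ₐ[K] K[X]) : K →+* K[X]))).coeff (j + 1) = 0
    rw [hT']
    simp
  · show (dfY n k a (m0.map ((Algebra.ofId K K[X] : K →ₐ[K] K[X]) : K →+* K[X]))).coeff (j + 1) = 0
    rw [hY']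
    simp

end

end H71.ES
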