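import Pool.Agent.H71.ES.CDeg
import Pool.Agent.H71.ES.CCrv

/-! # ES.CCrvDeg : the degrees in `τ` of the defects (about 100 lines)

`q` has degree `≤ 1` in `τ`, `x ≤ 2n`, `y ≤ 3n`, `t, u, v, s ≤ 6n` (`TD (6 * n)`); then `TD.mul`, `TD.add`, `NN_tdeg`, `NB_tdeg`, `NA_tdeg`
(`3 NA x ≤ 4n + 2n`).  `t.eval (-1)`: a finite sum of coefficients with signs (`eval_eq_sum`). -/

namespace H71.ES

open Polynomial H68.BB

section
variable {R : Type} [CommRing R]

private theorem cd_sum {ι : Type} {d : ℕ} {s : Finset ι} {f : ι → R[X][X]} (h : ∀ i ∈ s, TD d (f i)) :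
    TD d (∑ i ∈ s, f i) := by
  intro i
  rw [finsetSum_coeff]
  exact natDegree_sum_le_of_forall_le _ _ fun j hj => h j hj i

private theorem cd_C {d : ℕ} {p : R[X]} (h : p.natDegree ≤ d) : TD d (C p) := by
  intro i
  rw [coeff_C]
  split_ifs
  · exact h
  · rw [natDegree_zero]
    exact Nat.zero_le _

private theorem cd_Xpow (i : ℕ) : TD 0 ((X : R[X][X]) ^ i) := by
  intro j
  rw [coeff_X_pow]
  split_ifs
  · rw [natDegree_one]
  · rw [natDegree_zero]

private theorem cd_symp {d m : ℕ} {e : R[X]} {c : Fin m → R[X]} (he : e.natDegree = 0)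
    (hc : ∀ i, (c i).natDegree = 0) : TD 0 (symp d e c) := by
  unfold symp
  refine cd_sum fun i _ => ?_
  have h1 : TD (0 + 0) (C (c i) * (X ^ (i : ℕ) + C e * X ^ (d - (i : ℕ)))) := by
    refine TD.mul (cd_C (hc i).le) (TD.add (cd_Xpow _) ?_)
    have h2 : TD (0 + 0) (C e * X ^ (d - (i : ℕ))) := TD.mul (cd_C he.le) (cd_Xpow _)
    exact h2
  exact h1

private theorem cd_neg_one_pow (k : ℕ) : ((-1 : R[X]) ^ k).natDegree = 0 := by
  have h1 : ((-1 : R[X]) ^ k) = C ((-1) ^ k) := by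
    rw [C_pow, C_neg, C_1]
  rw [h1, natDegree_C]

private theorem cd_neg_neg_one_pow (k : ℕ) : (-(-1 : R[X]) ^ k).natDegree = 0 := by
  rw [natDegree_neg, cd_neg_one_pow]

private theorem cd_T {d k m N : ℕ} {p : R[X][X]} (hp : TD 0 p) {e : R[X]} (he : e.natDegree = 0)
    (hd : N ≤ d) (c : Fin N → Fin m → R) :
    TD d (p + ∑ j : Fin N, C (X ^ ((j : ℕ) + 1)) * symp k e (fun i => C (c j i))) := by
  refine TD.add (hp.mono (Nat.zero_le _)) (cd_sum fun j _ => ?_)
  have h1 : TD (((j : ℕ) + 1) + 0) (C (X ^ ((j : ℕ) + 1)) * symp k e (fun i => C (c j i))) :=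
    TD.mul (cd_C (natDegree_X_pow_le _)) (cd_symp he fun i => natDegree_C _)
  exact h1.mono (by omega)

private theorem cd_x {N : ℕ} {p : R[X]} (hp : p.natDegree = 0) (c : Fin N → R) :
    (p + ∑ j : Fin N, C (c j) * X ^ ((j : ℕ) + 1)).natDegree ≤ N := by
  refine natDegree_add_le_of_degree_le (by omega) ?_
  refine natDegree_sum_le_of_forall_le _ _ fun j _ => ?_
  exact (natDegree_C_mul_X_pow_le _ _).trans (by omega)

private theorem cd_nat_mul {d : ℕ} (m : ℕ) {p : R[X]} (hp : p.natDegree ≤ d) :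
    ((m : R[X]) * p).natDegree ≤ d := by
  have h1 : (m : R[X]) = C (m : R) := (map_natCast C m).symm
  rw [h1]
  exact (natDegree_C_mul_le _ _).trans hp

private theorem cd_mul {d e f : ℕ} {p q : R[X]} (hp : p.natDegree ≤ d) (hq : q.natDegree ≤ e)
    (h : d + e ≤ f) : (p * q).natDegree ≤ f :=
  natDegree_mul_le.trans (by omega)

private theorem cd_sub {d : ℕ} {p q : R[X]} (hp : p.natDegree ≤ d) (hq : q.natDegree ≤ d) :
    (p - q).natDegree ≤ d :=
  (natDegree_sub_le _ _).trans (max_le hp hq)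

end

variable {K : Type} [Field K] {R : Type} [CommRing R] [Algebra K R]

private theorem cd_alg (x : K) : (algebraMap K R[X] x).natDegree = 0 := by
  have h1 : algebraMap K R[X] x = C (algebraMap K R x) := rfl
  rw [h1, natDegree_C]

private theorem cd_map (p : K[X]) : TD 0 (p.map (algebraMap K R[X])) := by
  intro i
  rw [coeff_map, cd_alg]

private theorem cd_q {n k : ℕ} (m0 : Mdl K) (z : UU n k → R) : TD 1 (crv n k m0 z).q := by
  refine TD.add ((cd_map _).mono (by omega)) (cd_sum fun i _ => ?_)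
  have h1 : TD (1 + 0) (C (C (z (.inl i)) * X) * X ^ (i : ℕ)) := by
    refine TD.mul (cd_C ?_) (cd_Xpow _)
    exact (natDegree_C_mul_le _ _).trans natDegree_X_le
  exact h1

theorem crv_q_tdeg {n k : ℕ} (m0 : Mdl K) (z : UU n k → R) (i : ℕ) : ((crv n k m0 z).q.coeff i).natDegree ≤ 1 := by
  exact cd_q m0 z i

theorem crv_x_tdeg {n k : ℕ} (m0 : Mdl K) (z : UU n k → R) : (crv n k m0 z).x.natDegree ≤ 2 * n := by
  exact cd_x (cd_alg _) _

theorem crv_y_tdeg {n k : ℕ} (m0 : Mdl K) (z : UU n k → R) : (crv n k m0 z).y.natDegree ≤ 3 * n := by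
  exact cd_x (cd_alg _) _

theorem crv_T_tdeg {n k : ℕ} (m0 : Mdl K) (z : UU n k → R) : TD (6 * n) (crv n k m0 z).t ∧ TD (6 * n) (crv n k m0 z).u ∧
    TD (6 * n) (crv n k m0 z).v ∧ TD (6 * n) (crv n k m0 z).s := by
  refine ⟨?_, ?_, ?_, ?_⟩
  · exact cd_T (cd_map _) (cd_neg_one_pow k) le_rfl
      (fun j i => z (.inr (.inr (.inr (j, .inl i)))))
  · exact cd_T (cd_map _) (cd_neg_neg_one_pow k) le_rfl
      (fun j i => z (.inr (.inr (.inr (j, .inr (.inl i))))))
  · exact cd_T (cd_map _) (cd_neg_neg_one_pow k) le_rfl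
      (fun j i => z (.inr (.inr (.inr (j, .inr (.inr (.inl i)))))))
  · exact cd_T (cd_map _) (cd_neg_one_pow k) le_rfl
      (fun j i => z (.inr (.inr (.inr (j, .inr (.inr (.inr i)))))))

theorem dfD_tdeg {n k : ℕ} {a b : K[X]} (m0 : Mdl K) (z : UU n k → R) : TD (12 * n) (dfD n k a b (crv n k m0 z)) := by
  obtain ⟨ht, hu, hv, hs⟩ := crv_T_tdeg m0 z
  unfold dfD
  have h1 : TD (12 * n) ((crv n k m0 z).t ^ 2) := by
    rw [sq]
    exact (TD.mul ht ht).mono (by omega)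
  have h2 : TD (12 * n) ((crv n k m0 z).u * (crv n k m0 z).v) := (TD.mul hu hv).mono (by omega)
  have h3 : TD (12 * n) (X * (crv n k m0 z).s ^ 2) := by
    rw [sq]
    exact TD.X_mul ((TD.mul hs hs).mono (by omega))
  exact TD.sub (TD.sub (TD.add h1 h2) h3) (NN_tdeg (crv_q_tdeg m0 z))

theorem dfT_tdeg {n k : ℕ} {b : K[X]} (m0 : Mdl K) (z : UU n k → R) : (dfT n k b (crv n k m0 z)).natDegree ≤ 6 * n := by
  obtain ⟨ht, hu, hv, hs⟩ := crv_T_tdeg m0 z
  unfold dfT
  refine cd_sub ?_ ?_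
  · rw [eval_eq_sum_range]
    refine natDegree_sum_le_of_forall_le _ _ fun i _ => ?_
    exact cd_mul (ht i) (cd_neg_one_pow i).le (by omega)
  · have h1 : (2 : R[X]) ^ k = ((2 ^ k : ℕ) : R[X]) := by push_cast; rfl
    rw [h1]
    exact cd_nat_mul _ (NB_tdeg (crv_q_tdeg m0 z))

theorem dfY_tdeg {n k : ℕ} {a : K[X]} (m0 : Mdl K) (z : UU n k → R) : (dfY n k a (crv n k m0 z)).natDegree ≤ 6 * n := by
  obtain ⟨ht, hu, hv, hs⟩ := crv_T_tdeg m0 z
  have hx := crv_x_tdeg m0 z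
  have hy := crv_y_tdeg m0 z
  have hA := NA_tdeg (n := n) (k := k) (a := a) (crv_q_tdeg m0 z)
  unfold dfY Mdl.rhs
  refine cd_sub ?_ (cd_sub (cd_sub ?_ ?_) ?_)
  · rw [sq]
    exact cd_mul hy hy (by omega)
  · have h1 : (crv n k m0 z).x ^ 3 = (crv n k m0 z).x * (crv n k m0 z).x * (crv n k m0 z).x := by
      ring
    rw [h1]
    exact cd_mul (cd_mul hx hx le_rfl) hx (by omega)
  · have h1 : (3 : R[X]) * NA n k a (crv n k m0 z).q * (crv n k m0 z).x =
        ((3 : ℕ) : R[X]) * (NA n k a (crv n k m0 z).q * (crv n k m0 z).x) := by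
      push_cast
      ring
    rw [h1]
    exact cd_nat_mul _ (cd_mul hA hx (by omega))
  · have h1 : (2 : R[X]) * (crv n k m0 z).t.coeff 0 =
        ((2 : ℕ) : R[X]) * (crv n k m0 z).t.coeff 0 := by
      push_cast
      ring
    rw [h1]
    exact cd_nat_mul _ (ht 0)

end H71.ES
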