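import Pool.Agent.H71.ES.CCrv

/-! # ES.CInj : the coefficients are determined by the curve (about 100 lines)

Compare the coefficients: `q`: coefficient `i` in `X`, then `1` in `τ`; `x`, `y`: coefficient `j + 1` in `τ`; `t`: the coefficient of `X^i` with `i < m`, then of `τ^(j+1)`:
`symp_coeff`: for `2 i < d`, `(symp d e c).coeff i = c i`, and for `2 i = d` it is `c i (1 + e)`; for `t` and `2 i = k` the number `k` is even, `e = 1`, `1 + e = 2 ≠ 0`. -/

namespace H71.ES

open Polynomial H68.BB

theorem symp_coeff {R : Type} [CommRing R] {d m : ℕ} {e : R} (c : Fin m → R) (hm : 2 * m ≤ d + 2) (i : Fin m) :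
    (symp d e c).coeff i = if 2 * (i : ℕ) = d then c i * (1 + e) else c i := by
  have hi := i.2
  unfold symp
  rw [finsetSum_coeff, Finset.sum_eq_single i]
  · rw [coeff_C_mul, coeff_add, coeff_X_pow, coeff_C_mul, coeff_X_pow]
    by_cases h : 2 * (i : ℕ) = d
    · have h1 : (i : ℕ) = d - i := by omega
      rw [if_pos rfl, if_pos h1, if_pos h, mul_one]
    · have h1 : ¬ (i : ℕ) = d - i := by omega
      rw [if_pos rfl, if_neg h1, if_neg h, mul_zero, add_zero, mul_one]
  · intro b _ hb
    have hb2 := b.2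
    have h0 : ¬ (i : ℕ) = b := fun h => hb (Fin.ext h.symm)
    have h1 : ¬ (i : ℕ) = d - b := by omega
    rw [coeff_C_mul, coeff_add, coeff_X_pow, coeff_C_mul, coeff_X_pow, if_neg h0, if_neg h1]
    ring
  · intro h
    exact absurd (Finset.mem_univ _) h

private theorem lin0 {R : Type} [CommRing R] {N : ℕ} (a : Fin N → R)
    (h : ∑ j : Fin N, C (a j) * X ^ ((j : ℕ) + 1) = 0) (j : Fin N) : a j = 0 := by
  have h1 := congrArg (fun p : R[X] => p.coeff ((j : ℕ) + 1)) h
  simp only [finsetSum_coeff, coeff_zero] at h1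
  rw [Finset.sum_eq_single j] at h1
  · rw [coeff_C_mul_X_pow, if_pos rfl] at h1
    exact h1
  · intro b _ hb
    rw [coeff_C_mul_X_pow, if_neg]
    intro h
    exact hb (Fin.ext (by omega))
  · intro h
    exact absurd (Finset.mem_univ _) h

variable {K : Type} [Field K] [CharZero K]

omit [CharZero K] in
private theorem fam0 {N d m : ℕ} (e : K) (c : Fin N → Fin m → K) (hm : 2 * m ≤ d + 2)
    (hne : ∀ i : Fin m, 2 * (i : ℕ) = d → 1 + e ≠ 0)
    (h : ∑ j : Fin N, (C ((X : K[X]) ^ ((j : ℕ) + 1)) : K[X][X]) *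
      symp d (C e : K[X]) (fun i => (C (c j i) : K[X])) = 0) (j : Fin N) (i : Fin m) : c j i = 0 := by
  have h1 := congrArg (fun p : K[X][X] => p.coeff (i : ℕ)) h
  simp only [finsetSum_coeff, coeff_zero, coeff_C_mul] at h1
  set ep : K := if 2 * (i : ℕ) = d then 1 + e else 1 with hep
  have hep0 : ep ≠ 0 := by
    rw [hep]
    split_ifs with h
    · exact hne i h
    · exact one_ne_zero
  have h2 : ∑ j : Fin N, C (c j i * ep) * X ^ ((j : ℕ) + 1) = (0 : K[X]) := by
    rw [← h1]
    refine Finset.sum_congr rfl fun j _ => ?_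
    rw [symp_coeff _ hm, hep]
    split_ifs with h
    · simp only [map_mul, map_add, map_one]
      ring
    · rw [mul_one, mul_comm]
  have h3 := lin0 _ h2 j
  exact (mul_eq_zero.mp h3).resolve_right hep0

theorem crv_inj {n k : ℕ} (m0 : Mdl K) (z : UU n k → K) (h : crv n k m0 z = m0.const) : z = 0 := by
  have hq := congrArg Mdl.q h
  have hx := congrArg Mdl.x h
  have hy := congrArg Mdl.y h
  have hs := congrArg Mdl.s h
  have ht := congrArg Mdl.t h
  have hu := congrArg Mdl.u h
  have hv := congrArg Mdl.v h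
  simp only [crv, Mdl.const, Mdl.map] at hq hx hy hs ht hu hv
  rw [add_eq_left] at hq hx hy hs ht hu hv
  have e1 : ((-1 : K[X]) ^ k) = C ((-1 : K) ^ k) := by simp
  have e2 : (-(-1 : K[X]) ^ k) = C (-(-1 : K) ^ k) := by simp
  rw [e1] at ht hs
  rw [e2] at hu hv
  have ht' := fam0 _ (fun j i => z (.inr (.inr (.inr (j, .inl i))))) (by omega) (by
    intro i hi
    have hk : Even k := ⟨i, by omega⟩
    rw [hk.neg_one_pow]
    norm_num) ht
  have hu' := fam0 _ (fun j i => z (.inr (.inr (.inr (j, .inr (.inl i)))))) (by omega) (by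
    intro i hi
    have := i.2
    omega) hu
  have hv' := fam0 _ (fun j i => z (.inr (.inr (.inr (j, .inr (.inr (.inl i))))))) (by omega) (by
    intro i hi
    have := i.2
    omega) hv
  have hs' := fam0 _ (fun j i => z (.inr (.inr (.inr (j, .inr (.inr (.inr i))))))) (by omega) (by
    intro i hi
    have := i.2
    omega) hs
  have hx' := lin0 _ hx
  have hy' := lin0 _ hy
  funext w
  rcases w with i | j | j | ⟨j, i | i | i | i⟩
  · have h1 := congrArg (fun p : K[X][X] => (p.coeff (i : ℕ)).coeff 1) hq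
    simp only [finsetSum_coeff, coeff_zero] at h1
    rw [Finset.sum_eq_single i] at h1
    · rw [coeff_C_mul_X_pow, if_pos rfl, coeff_C_mul, coeff_X_one, mul_one] at h1
      exact h1
    · intro b _ hb
      rw [coeff_C_mul_X_pow, if_neg, coeff_zero]
      intro h
      exact hb (Fin.ext h.symm)
    · intro h
      exact absurd (Finset.mem_univ _) h
  · exact hx' j
  · exact hy' j
  · exact ht' j i
  · exact hu' j i
  · exact hv' j i
  · exact hs' j i

end H71.ES
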