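import Pool.Agent.H71.ES.CMap
import Pool.Agent.H67.KH.Roots

/-! # ES.CPl : values of polynomials over `K` at integral and at nonintegral elements, the parameter `tt / (1 - tt)` (about 100 lines)

`rd_aeval`: induction over the polynomial (as `fam_rd_aeval` in `H67.KH.Fam`).  `natDegree_of_mem`: if `d = natDegree p > 0` then `x⁻¹` reduces to `0` (`Rd.inv_zero`, `Place.isLocal`),
`p(x) x^(-d) = sum_i p_i (x⁻¹)^(d-i)` reduces to `p_d ≠ 0`, but it is `p(x) · (x⁻¹)^d` with `p(x) ∈ V`, which reduces to `0`.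
`places`: `place_exists K 0` and `place_exists K 1`; `lam = tt / (1 - tt)` reduces to `0`, resp. `lam⁻¹ = (1 - tt) / tt` reduces to `0`, so `lam ∉ V` (`Rd.not_mem`), `tt ≠ 0`, `tt ≠ 1` (`tt_ne`).
`RdM_of_rd`: apply `rd_aeval` to the coefficients: `c.map (aeval x)` reduces to `c.map (evalRingHom x')`. -/

namespace H71.ES

open Polynomial H68.BB

variable {K : Type} [Field K]

private theorem rd_cst {π : Place K (Om K)} (c : K) : Rd π.V π.φ (algebraMap K (Om K) c) c :=
  π.const c

theorem rd_aeval {π : Place K (Om K)} {x : Om K} {x' : K} (h : Rd π.V π.φ x x') (p : K[X]) :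
    Rd π.V π.φ (aeval x p) (p.eval x') := by
  induction p using Polynomial.induction_on' with
  | add p q hp hq =>
    rw [map_add, eval_add]
    exact hp.add hq
  | monomial n a =>
    rw [aeval_monomial, eval_monomial]
    exact (rd_cst a).mul (h.pow n)

theorem natDegree_of_mem {π : Place K (Om K)} {x : Om K} (hx : x ∉ π.V) {p : K[X]} (h : aeval x p ∈ π.V) :
    p.natDegree = 0 := by
  have := π.isLocal
  by_contra hd
  have hx0 : x ≠ 0 := by
    rintro rfl
    exact hx π.V.zero_mem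
  have hy : Rd π.V π.φ x⁻¹ 0 := Rd.inv_zero hx
  have h1 : Rd π.V π.φ (aeval x⁻¹ p.reverse) (p.reverse.eval 0) := rd_aeval hy _
  have h2 : p.reverse.eval 0 = p.leadingCoeff := by
    rw [← coeff_zero_eq_eval_zero, coeff_zero_reverse]
  have h3 : aeval x⁻¹ p.reverse = aeval x p * x⁻¹ ^ p.natDegree := by
    have := invertibleOfNonzero hx0
    have h4 := eval₂_reverse_mul_pow (algebraMap K (Om K)) x p
    rw [invOf_eq_inv] at h4
    rw [aeval_def, aeval_def, ← h4, mul_assoc, ← mul_pow, mul_inv_cancel₀ hx0, one_pow, mul_one]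
  have h5 : Rd π.V π.φ (aeval x p * x⁻¹ ^ p.natDegree) (π.φ ⟨aeval x p, h⟩ * 0 ^ p.natDegree) :=
    (Rd.of_mem h).mul (hy.pow _)
  rw [zero_pow hd, mul_zero] at h5
  rw [h3, h2] at h1
  have h6 := h1.unique h5
  rw [leadingCoeff_eq_zero] at h6
  rw [h6, natDegree_zero] at hd
  exact hd rfl

/-- the parameter -/
noncomputable def lam (K : Type) [Field K] : Om K := tt K / (1 - tt K)

private theorem tt_ne_zero' : tt K ≠ 0 := by
  have h := tt_ne K 0
  rwa [show (cst (0 : K) : Om K) = 0 from map_zero (algebraMap K (Om K))] at h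

private theorem one_sub_tt_ne : (1 : Om K) - tt K ≠ 0 := by
  have h := tt_ne K 1
  rw [show (cst (1 : K) : Om K) = 1 from map_one (algebraMap K (Om K))] at h
  exact sub_ne_zero.mpr h.symm

theorem lam_sigma (σ : Om K ≃ₐ[RatFunc K] Om K) : σ (lam K) = lam K := by
  have h : σ (tt K) = tt K := σ.commutes _
  unfold lam
  rw [map_div₀, map_sub, map_one, h]

theorem lam_ne_zero : lam K ≠ 0 := by
  unfold lam
  exact div_ne_zero tt_ne_zero' one_sub_tt_ne

theorem places [IsAlgClosed K] : ∃ π0 π1 : Place K (Om K), Rd π0.V π0.φ (lam K) 0 ∧ lam K ∉ π1.V := by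
  obtain ⟨π0, h0, h0'⟩ := place_exists K 0
  obtain ⟨π1, h1, h1'⟩ := place_exists K 1
  refine ⟨π0, π1, ?_, ?_⟩
  · have := π0.isLocal
    have e0 : Rd π0.V π0.φ (tt K) 0 := ⟨h0, h0'⟩
    have e1 := e0.div ((Rd.one (V := π0.V) (φ := π0.φ)).sub e0) (by simp)
    rw [zero_div] at e1
    exact e1
  · have := π1.isLocal
    have e0 : Rd π1.V π1.φ (tt K) 1 := ⟨h1, h1'⟩
    have e1 := ((Rd.one (V := π1.V) (φ := π1.φ)).sub e0).div e0 one_ne_zero
    rw [sub_self, zero_div] at e1
    refine Rd.not_mem (φ := π1.φ) ?_ lam_ne_zero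
    unfold lam
    rw [inv_div]
    exact e1

theorem RdM_of_rd {π : Place K (Om K)} {x : Om K} {x' : K} (h : Rd π.V π.φ x x') (c : Mdl K[X]) :
    RdM π (c.map (aeval x : K[X] →ₐ[K] Om K).toRingHom) (c.map (evalRingHom x')) where
  q i := by
    show Rd π.V π.φ ((c.q.map (aeval x : K[X] →ₐ[K] Om K).toRingHom).coeff i) ((c.q.map (evalRingHom x')).coeff i)
    rw [coeff_map, coeff_map]
    exact rd_aeval h _
  x := rd_aeval h _
  y := rd_aeval h _
  s i := by
    show Rd π.V π.φ ((c.s.map (aeval x : K[X] →ₐ[K] Om K).toRingHom).coeff i) ((c.s.map (evalRingHom x')).coeff i)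
    rw [coeff_map, coeff_map]
    exact rd_aeval h _
  t i := by
    show Rd π.V π.φ ((c.t.map (aeval x : K[X] →ₐ[K] Om K).toRingHom).coeff i) ((c.t.map (evalRingHom x')).coeff i)
    rw [coeff_map, coeff_map]
    exact rd_aeval h _
  u i := by
    show Rd π.V π.φ ((c.u.map (aeval x : K[X] →ₐ[K] Om K).toRingHom).coeff i) ((c.u.map (evalRingHom x')).coeff i)
    rw [coeff_map, coeff_map]
    exact rd_aeval h _
  v i := by
    show Rd π.V π.φ ((c.v.map (aeval x : K[X] →ₐ[K] Om K).toRingHom).coeff i) ((c.v.map (evalRingHom x')).coeff i)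
    rw [coeff_map, coeff_map]
    exact rd_aeval h _

theorem map_aeval_sigma (σ : Om K ≃ₐ[RatFunc K] Om K) (x : Om K) (c : Mdl K[X]) :
    (c.map (aeval x : K[X] →ₐ[K] Om K).toRingHom).map (σ : Om K →+* Om K) = c.map (aeval (σ x) : K[X] →ₐ[K] Om K).toRingHom := by
  rw [map_map']
  congr 1
  apply Polynomial.ringHom_ext
  · intro a
    have h1 : ∀ y : Om K, (aeval y : K[X] →ₐ[K] Om K).toRingHom (C a) = algebraMap K (Om K) a := by
      intro y
      exact aeval_C y a
    rw [RingHom.comp_apply, h1, h1, IsScalarTower.algebraMap_apply K (RatFunc K) (Om K)]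
    exact σ.commutes _
  · have h1 : ∀ y : Om K, (aeval y : K[X] →ₐ[K] Om K).toRingHom X = y := by
      intro y
      exact aeval_X y
    rw [RingHom.comp_apply, h1, h1]
    rfl

end H71.ES
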