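import Pool.Agent.H71.ES.CNrm

/-! # ES.CMap : the equations are stable under base change (about 70 lines)

All by `NA_map`, `NB_map`, `NN_map`, `Polynomial.map_pow` ..., `Monic.map`, `Monic.natDegree_map`, `natDegree_map_le`, `coeff_map`, `eval_map_apply`/`hom_eval₂`. -/

namespace H71.ES

open Polynomial H68.BB

variable {K : Type} [Field K] {R S : Type} [CommRing R] [CommRing S] [Algebra K R] [Algebra K S]

theorem Pal.map {k : ℕ} {m : Mdl R} (h : Pal k m) (f : R →+* S) : Pal k (m.map f) where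
  dt := natDegree_map_le.trans h.dt
  du := natDegree_map_le.trans h.du
  dv := natDegree_map_le.trans h.dv
  ds := natDegree_map_le.trans h.ds
  pt i hi := by
    show (m.t.map f).coeff (k - i) = (-1) ^ k * (m.t.map f).coeff i
    rw [coeff_map, coeff_map, h.pt i hi]
    simp
  pu i hi := by
    show (m.u.map f).coeff (k - i) = -(-1) ^ k * (m.u.map f).coeff i
    rw [coeff_map, coeff_map, h.pu i hi]
    simp
  pv i hi := by
    show (m.v.map f).coeff (k - i) = -(-1) ^ k * (m.v.map f).coeff i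
    rw [coeff_map, coeff_map, h.pv i hi]
    simp
  ps i hi := by
    show (m.s.map f).coeff (k - 1 - i) = (-1) ^ k * (m.s.map f).coeff i
    rw [coeff_map, coeff_map, h.ps i hi]
    simp

theorem OnM0.map [Nontrivial S] {n k : ℕ} {a b : K[X]} {m : Mdl R} (h : OnM0 n k a b m) (f : R →ₐ[K] S) :
    OnM0 n k a b (m.map (f : R →+* S)) where
  monic := h.monic.map _
  deg := by
    show (m.q.map (f : R →+* S)).natDegree = k
    rw [h.monic.natDegree_map, h.deg]
  pal := h.pal.map _
  det := by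
    show (m.t.map (f : R →+* S)) ^ 2 + m.u.map (f : R →+* S) * m.v.map (f : R →+* S) -
      X * (m.s.map (f : R →+* S)) ^ 2 = NN n k a b (m.q.map (f : R →+* S))
    rw [NN_map, ← h.det]
    simp
  tm1 := by
    show (m.t.map (f : R →+* S)).eval (-1) = 2 ^ k * NB n k b (m.q.map (f : R →+* S))
    rw [NB_map]
    have h1 : (m.t.map (f : R →+* S)).eval (-1) = (f : R →+* S) (m.t.eval (-1)) := by
      rw [← eval_map_apply]
      simp
    rw [h1, h.tm1]
    simp [map_ofNat]

theorem rhs_map {n k : ℕ} {a : K[X]} (m : Mdl R) (f : R →ₐ[K] S) :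
    (m.map (f : R →+* S)).rhs n k a = f (m.rhs n k a) := by
  show (f m.x) ^ 3 - 3 * NA n k a (m.q.map (f : R →+* S)) * (f m.x) -
    2 * (m.t.map (f : R →+* S)).coeff 0 = f (m.x ^ 3 - 3 * NA n k a m.q * m.x - 2 * m.t.coeff 0)
  rw [NA_map, coeff_map]
  simp [map_ofNat]

theorem OnM.map [Nontrivial S] {n k : ℕ} {a b : K[X]} {m : Mdl R} (h : OnM n k a b m) (f : R →ₐ[K] S) :
    OnM n k a b (m.map (f : R →+* S)) where
  toOnM0 := h.toOnM0.map f
  eqy := by
    rw [rhs_map, ← h.eqy]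
    show (f m.y) ^ 2 = f (m.y ^ 2)
    rw [map_pow]

theorem dfD_map {n k : ℕ} {a b : K[X]} (m : Mdl R) (f : R →ₐ[K] S) :
    dfD n k a b (m.map (f : R →+* S)) = (dfD n k a b m).map (f : R →+* S) := by
  show (m.t.map (f : R →+* S)) ^ 2 + m.u.map (f : R →+* S) * m.v.map (f : R →+* S) -
      X * (m.s.map (f : R →+* S)) ^ 2 - NN n k a b (m.q.map (f : R →+* S)) =
    (m.t ^ 2 + m.u * m.v - X * m.s ^ 2 - NN n k a b m.q).map (f : R →+* S)
  rw [NN_map]
  simp

theorem dfT_map {n k : ℕ} {b : K[X]} (m : Mdl R) (f : R →ₐ[K] S) :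
    dfT n k b (m.map (f : R →+* S)) = f (dfT n k b m) := by
  show (m.t.map (f : R →+* S)).eval (-1) - 2 ^ k * NB n k b (m.q.map (f : R →+* S)) =
    f (m.t.eval (-1) - 2 ^ k * NB n k b m.q)
  have h1 : (m.t.map (f : R →+* S)).eval (-1) = (f : R →+* S) (m.t.eval (-1)) := by
    rw [← eval_map_apply]
    simp
  rw [NB_map, h1]
  simp [map_ofNat]

theorem dfY_map {n k : ℕ} {a : K[X]} (m : Mdl R) (f : R →ₐ[K] S) :
    dfY n k a (m.map (f : R →+* S)) = f (dfY n k a m) := by
  show (f m.y) ^ 2 - (m.map (f : R →+* S)).rhs n k a = f (m.y ^ 2 - m.rhs n k a)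
  rw [rhs_map]
  simp

theorem map_map' {T : Type} [CommRing T] (m : Mdl R) (f : R →+* S) (g : S →+* T) : (m.map f).map g = m.map (g.comp f) := by
  simp only [Mdl.map, Polynomial.map_map, RingHom.comp_apply]

end H71.ES
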