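import Pool.Agent.H71.ES.Mod

/-! # ES.CDef : the curve with undetermined coefficients through a model point (definitions only)

The variable `X` of `R[X]` is the parameter `τ` of the curve; a curve is a model point with values in `R[X]`. -/

namespace H71.ES

open Polynomial H68.BB

/-- `sum_i c_i (X^i + e X^(d-i))` -/
noncomputable def symp {R : Type} [CommRing R] (d : ℕ) (e : R) {m : ℕ} (c : Fin m → R) : R[X] :=
  ∑ i : Fin m, C (c i) * (X ^ (i : ℕ) + C e * X ^ (d - (i : ℕ)))

/-- the unknowns of degree `6 n` (for one power of `τ`) -/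
abbrev UT (k : ℕ) : Type := Fin (k / 2 + 1) ⊕ Fin ((k + 1) / 2) ⊕ Fin ((k + 1) / 2) ⊕ Fin (k / 2)

/-- all unknowns: coefficients of `q_1`, of `x`, of `y`, and of `t, u, v, s` -/
abbrev UU (n k : ℕ) : Type := Fin k ⊕ Fin (2 * n) ⊕ Fin (3 * n) ⊕ (Fin (6 * n) × UT k)

/-- all equations: the coefficients of `τ^(j+1)` -/
abbrev EE (n k : ℕ) : Type := (Fin k × Fin (12 * n)) ⊕ Fin (6 * n) ⊕ Fin (6 * n - 1)

section
variable {K : Type} [Field K] {R : Type} [CommRing R] [Algebra K R]

/-- the curve through `m0` with coefficients `z` -/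
noncomputable def crv (n k : ℕ) (m0 : Mdl K) (z : UU n k → R) : Mdl R[X] where
  q := m0.q.map (algebraMap K R[X]) + ∑ i : Fin k, C (C (z (.inl i)) * X) * X ^ (i : ℕ)
  x := algebraMap K R[X] m0.x + ∑ j : Fin (2 * n), C (z (.inr (.inl j))) * X ^ ((j : ℕ) + 1)
  y := algebraMap K R[X] m0.y + ∑ j : Fin (3 * n), C (z (.inr (.inr (.inl j)))) * X ^ ((j : ℕ) + 1)
  t := m0.t.map (algebraMap K R[X]) + ∑ j : Fin (6 * n), C (X ^ ((j : ℕ) + 1)) *
    symp k ((-1) ^ k) (fun i => C (z (.inr (.inr (.inr (j, .inl i))))))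
  u := m0.u.map (algebraMap K R[X]) + ∑ j : Fin (6 * n), C (X ^ ((j : ℕ) + 1)) *
    symp k (-(-1) ^ k) (fun i => C (z (.inr (.inr (.inr (j, .inr (.inl i)))))))
  v := m0.v.map (algebraMap K R[X]) + ∑ j : Fin (6 * n), C (X ^ ((j : ℕ) + 1)) *
    symp k (-(-1) ^ k) (fun i => C (z (.inr (.inr (.inr (j, .inr (.inr (.inl i))))))))
  s := m0.s.map (algebraMap K R[X]) + ∑ j : Fin (6 * n), C (X ^ ((j : ℕ) + 1)) *
    symp (k - 1) ((-1) ^ k) (fun i => C (z (.inr (.inr (.inr (j, .inr (.inr (.inr i))))))))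

/-- the defect of the determinant equation -/
noncomputable def dfD (n k : ℕ) (a b : K[X]) (m : Mdl R) : R[X] :=
  m.t ^ 2 + m.u * m.v - X * m.s ^ 2 - NN n k a b m.q

/-- the defect of the equation `t(-1) = 2^k B` -/
noncomputable def dfT (n k : ℕ) (b : K[X]) (m : Mdl R) : R := m.t.eval (-1) - 2 ^ k * NB n k b m.q

/-- the defect of the equation of `y` -/
noncomputable def dfY (n k : ℕ) (a : K[X]) (m : Mdl R) : R := m.y ^ 2 - m.rhs n k a

/-- the equations for the coefficients -/
noncomputable def eqn (n k : ℕ) (a b : K[X]) (c : Mdl R[X]) : EE n k → R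
  | .inl (m, j) => ((dfD n k a b c).coeff m).coeff (j + 1)
  | .inr (.inl j) => (dfT n k b c).coeff (j + 1)
  | .inr (.inr j) => (dfY n k a c).coeff (j + 1)

/-- the constant curve -/
noncomputable def Mdl.const (m0 : Mdl K) : Mdl K[X] := m0.map (algebraMap K K[X])

/-- the properties of the curve which we need: `c` is a curve through `m0` on which all equations hold, that of `y` up to a
multiple `γ τ^(6n)` of the highest power of `τ`, and which is not constant -/
structure IsCrv (n k : ℕ) (a b : K[X]) (m0 : Mdl K) (c : Mdl K[X]) (γ : K) : Prop where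
  on : OnM0 n k a b c
  eqy : c.rhs n k a = c.y ^ 2 + C γ * X ^ (6 * n)
  at0 : c.map (evalRingHom 0) = m0
  dy : c.y.natDegree ≤ 3 * n
  ne : c ≠ m0.const

end

end H71.ES
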