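import Pool.Agent.H67.KH.Krull
import Pool.Agent.H71.ES.CDef

/-! # ES.CKru : fewer equations than unknowns (about 70 lines)

`krull'`: from `H67.KH.krull` (`n` equations in `n + 1` unknowns): choose an injection of `Fin (card ι + 1)` into `κ`, put the other unknowns equal to `0`
(`MvPolynomial.aeval`), and reindex the equations by `Fintype.equivFin`.  `card_lt`: `Fintype.card_sum`, `Fintype.card_prod`, `Fintype.card_fin`; `k / 2 + 1 + 2 ((k+1)/2) + k / 2 = 2 k + 1` (`omega`);
`12 n k + 6 n + (6 n - 1) < k + 2 n + 3 n + 6 n (2 k + 1)` (`nlinarith` or `ring_nf` and `omega`). -/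

namespace H71.ES

open Polynomial H68.BB

theorem krull' {K : Type} [Field K] [IsAlgClosed K] {ι κ : Type} [Fintype ι] [Fintype κ]
    (h : Fintype.card ι < Fintype.card κ) (g : ι → MvPolynomial κ K) (h0 : ∀ i, MvPolynomial.eval 0 (g i) = 0) :
    ∃ u : κ → K, u ≠ 0 ∧ ∀ i, MvPolynomial.eval u (g i) = 0 := by
  classical
  have hc : Fintype.card (Fin (Fintype.card ι + 1)) ≤ Fintype.card κ := by
    rw [Fintype.card_fin]
    exact h
  obtain ⟨e⟩ := Function.Embedding.nonempty_of_card_le hc
  let x : κ → MvPolynomial (Fin (Fintype.card ι + 1)) K :=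
    Function.extend e (fun i => MvPolynomial.X i) 0
  have hx : ∀ (u : Fin (Fintype.card ι + 1) → K) (j : κ),
      MvPolynomial.eval u (x j) = Function.extend e u 0 j := by
    intro u j
    by_cases hj : ∃ i, e i = j
    · obtain ⟨i, rfl⟩ := hj
      simp only [x]
      rw [e.injective.extend_apply, e.injective.extend_apply, MvPolynomial.eval_X]
    · simp only [x]
      rw [Function.extend_apply' _ _ _ hj, Function.extend_apply' _ _ _ hj]
      simp
  let ψ : MvPolynomial κ K →ₐ[K] MvPolynomial (Fin (Fintype.card ι + 1)) K := MvPolynomial.aeval x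
  have hψ : ∀ (u : Fin (Fintype.card ι + 1) → K) (p : MvPolynomial κ K),
      MvPolynomial.eval u (ψ p) = MvPolynomial.eval (Function.extend e u 0) p := by
    intro u p
    have h1 : ((MvPolynomial.aeval u : MvPolynomial (Fin (Fintype.card ι + 1)) K →ₐ[K] K).comp ψ) =
        (MvPolynomial.aeval (Function.extend e u 0) : MvPolynomial κ K →ₐ[K] K) := by
      apply MvPolynomial.algHom_ext
      intro j
      rw [AlgHom.comp_apply, MvPolynomial.aeval_X, MvPolynomial.aeval_X]
      exact hx u j
    have h2 := DFunLike.congr_fun h1 p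
    rw [AlgHom.comp_apply] at h2
    exact h2
  have hz : Function.extend e (0 : Fin (Fintype.card ι + 1) → K) 0 = 0 := by
    funext j
    by_cases hj : ∃ i, e i = j
    · obtain ⟨i, rfl⟩ := hj
      rw [e.injective.extend_apply]
      rfl
    · rw [Function.extend_apply' _ _ _ hj]
  obtain ⟨u, hu, hg⟩ := H67.KH.krull
    (fun i : Fin (Fintype.card ι) => ψ (g ((Fintype.equivFin ι).symm i)))
    (fun i => by rw [hψ, hz]; exact h0 _)
  refine ⟨Function.extend e u 0, ?_, ?_⟩
  · intro hcon
    apply hu
    funext i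
    have := congrFun hcon (e i)
    rw [e.injective.extend_apply] at this
    exact this
  · intro i
    have := hg (Fintype.equivFin ι i)
    rw [hψ, Equiv.symm_apply_apply] at this
    exact this

theorem card_lt {n k : ℕ} (hn : 0 < n) (hk : n ≤ k) : Fintype.card (EE n k) < Fintype.card (UU n k) := by
  have h1 : Fintype.card (EE n k) = k * (12 * n) + (6 * n + (6 * n - 1)) := by
    simp only [EE, Fintype.card_sum, Fintype.card_prod, Fintype.card_fin]
  have h2 : Fintype.card (UU n k) = k + (2 * n + (3 * n + 6 * n * (2 * k + 1))) := by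
    simp only [UU, UT, Fintype.card_sum, Fintype.card_prod, Fintype.card_fin]
    have : k / 2 + 1 + ((k + 1) / 2 + ((k + 1) / 2 + k / 2)) = 2 * k + 1 := by omega
    rw [this]
  rw [h1, h2]
  have h3 : 6 * n * (2 * k + 1) = k * (12 * n) + 6 * n := by ring
  rw [h3]
  omega

end H71.ES
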