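import Pool.Agent.H71.ES.CNrm

/-! # ES.CDeg : the degree in `τ` of the norm forms (about 100 lines)

`q ∈ R[τ][X]` with coefficients of degree `≤ 1` in `τ`, `g` with constant coefficients: the Sylvester matrix `sylvester q g k N` has `N` columns with
coefficients of `q` and `k` columns with coefficients of `g` (look at its definition: the columns `Fin.natAdd` contain `f = q`), so its determinant
(`Matrix.det_apply`, a sum of products of one entry of each column) has degree `≤ N` in `τ`.
`NN_tdeg`: the same over the ring `R[τ][L]` with the predicate `TD d p := ∀ i, (p.coeff i).natDegree ≤ d`, which is stable under sums, negation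
and `TD d p → TD e q → TD (d + e) (p * q)` (`natDegree_sum_le_of_forall_le`, `coeff_mul`), hence under products over a finset. -/

namespace H71.ES

open Polynomial H68.BB

/-- all coefficients have degree at most `d` in `τ` -/
def TD {R : Type} [CommRing R] (d : ℕ) (p : R[X][X]) : Prop := ∀ i, (p.coeff i).natDegree ≤ d

private theorem prod_filt {A : Type} [CommRing A] {P : ℕ → A → Prop} (h1 : P 0 1)
    (hmul : ∀ d e p q, P d p → P e q → P (d + e) (p * q)) {ι : Type} [DecidableEq ι] (s : Finset ι) (f : ι → A) (d : ι → ℕ)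
    (hf : ∀ i, P (d i) (f i)) : P (∑ i ∈ s, d i) (∏ i ∈ s, f i) := by
  induction s using Finset.induction_on with
  | empty => simpa using h1
  | insert a s ha ih =>
    rw [Finset.sum_insert ha, Finset.prod_insert ha]
    exact hmul _ _ _ _ (hf a) ih

private theorem det_filt {A : Type} [CommRing A] {P : ℕ → A → Prop} (h0 : ∀ d, P d 0) (h1 : P 0 1)
    (hadd : ∀ d p q, P d p → P d q → P d (p + q)) (hneg : ∀ d p, P d p → P d (-p))
    (hmul : ∀ d e p q, P d p → P e q → P (d + e) (p * q)) {m : ℕ} (M : Matrix (Fin m) (Fin m) A) (d : Fin m → ℕ)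
    (hM : ∀ i j, P (d j) (M i j)) : P (∑ j, d j) M.det := by
  rw [Matrix.det_apply]
  refine Finset.sum_induction _ (P (∑ j, d j)) (fun p q hp hq => hadd _ p q hp hq) (h0 _) (fun σ _ => ?_)
  have h2 : P (∑ j, d j) (∏ i, M (σ i) i) := prod_filt h1 hmul Finset.univ _ _ (fun i => hM _ i)
  rcases Int.units_eq_one_or (Equiv.Perm.sign σ) with h | h
  · rw [h, one_smul]
    exact h2
  · rw [h, Units.neg_smul, one_smul]
    exact hneg _ _ h2

private theorem nrm_filt {A : Type} [CommRing A] {P : ℕ → A → Prop} (h0 : ∀ d, P d 0) (h1 : P 0 1)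
    (hadd : ∀ d p q, P d p → P d q → P d (p + q)) (hneg : ∀ d p, P d p → P d (-p))
    (hmul : ∀ d e p q, P d p → P e q → P (d + e) (p * q)) {k N : ℕ} {q g : A[X]} (hq : ∀ i, P 1 (q.coeff i))
    (hg : ∀ i, P 0 (g.coeff i)) : P N (nrm k N q g) := by
  have h2 := det_filt h0 h1 hadd hneg hmul (sylvester q g k N) (Fin.addCases (fun _ => 0) (fun _ => 1)) (by
    intro i j
    refine Fin.addCases (fun j => ?_) (fun j => ?_) j
    · simp only [sylvester, Matrix.of_apply, Fin.addCases_left]
      split_ifs
      · exact hg _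
      · exact h0 _
    · simp only [sylvester, Matrix.of_apply, Fin.addCases_right]
      split_ifs
      · exact hq _
      · exact h0 _)
  have h3 : ∑ j : Fin (k + N), (Fin.addCases (fun _ => 0) (fun _ => 1) j : ℕ) = N := by
    rw [Fin.sum_univ_add]
    simp
  rw [h3] at h2
  exact h2

private theorem TD.zero' {R : Type} [CommRing R] (d : ℕ) : TD d (0 : R[X][X]) := by
  intro i
  simp

private theorem TD.one' {R : Type} [CommRing R] : TD 0 (1 : R[X][X]) := by
  intro i
  rw [coeff_one]
  split_ifs <;> simp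

private theorem TD.neg' {R : Type} [CommRing R] (d : ℕ) (p : R[X][X]) (hp : TD d p) : TD d (-p) := by
  intro i
  rw [coeff_neg, natDegree_neg]
  exact hp i

section
variable {R : Type} [CommRing R]

theorem TD.mono {d e : ℕ} (h : d ≤ e) {p : R[X][X]} (hp : TD d p) : TD e p := by
  intro i
  exact (hp i).trans h

theorem TD.add {d : ℕ} {p q : R[X][X]} (hp : TD d p) (hq : TD d q) : TD d (p + q) := by
  intro i
  rw [coeff_add]
  exact (natDegree_add_le _ _).trans (max_le (hp i) (hq i))

theorem TD.sub {d : ℕ} {p q : R[X][X]} (hp : TD d p) (hq : TD d q) : TD d (p - q) := by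
  intro i
  rw [coeff_sub]
  exact (natDegree_sub_le _ _).trans (max_le (hp i) (hq i))

theorem TD.mul {d e : ℕ} {p q : R[X][X]} (hp : TD d p) (hq : TD e q) : TD (d + e) (p * q) := by
  intro i
  rw [coeff_mul]
  refine natDegree_sum_le_of_forall_le _ _ (fun x _ => ?_)
  exact natDegree_mul_le.trans (add_le_add (hp _) (hq _))

theorem TD.X_mul {d : ℕ} {p : R[X][X]} (hp : TD d p) : TD d (X * p) := by
  intro i
  cases i with
  | zero => simp
  | succ i =>
    rw [coeff_X_mul]
    exact hp i

theorem nrm_tdeg {k N : ℕ} {q g : R[X][X]} (hq : ∀ i, (q.coeff i).natDegree ≤ 1) (hg : ∀ i, (g.coeff i).natDegree = 0) :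
    (nrm k N q g).natDegree ≤ N := by
  exact nrm_filt (P := fun d (p : R[X]) => p.natDegree ≤ d) (fun d => by simp) (by simp)
    (fun d p q hp hq => (natDegree_add_le _ _).trans (max_le hp hq)) (fun d p hp => by rwa [natDegree_neg])
    (fun d e p q hp hq => natDegree_mul_le.trans (add_le_add hp hq)) hq (fun i => (hg i).le)

end

section
variable {K : Type} [Field K] {R : Type} [CommRing R] [Algebra K R]

theorem NA_tdeg {n k : ℕ} {a : K[X]} {q : R[X][X]} (hq : ∀ i, (q.coeff i).natDegree ≤ 1) :
    (NA n k a q).natDegree ≤ 4 * n := by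
  refine nrm_tdeg hq (fun i => ?_)
  rw [coeff_map, Polynomial.algebraMap_apply, natDegree_C]

theorem NB_tdeg {n k : ℕ} {b : K[X]} {q : R[X][X]} (hq : ∀ i, (q.coeff i).natDegree ≤ 1) :
    (NB n k b q).natDegree ≤ 6 * n := by
  refine nrm_tdeg hq (fun i => ?_)
  rw [coeff_map, Polynomial.algebraMap_apply, natDegree_C]

theorem NN_tdeg {n k : ℕ} {a b : K[X]} {q : R[X][X]} (hq : ∀ i, (q.coeff i).natDegree ≤ 1) :
    TD (12 * n) (NN n k a b q) := by
  refine nrm_filt (P := fun d (p : R[X][X]) => TD d p) TD.zero' TD.one' (fun d p q hp hq => hp.add hq) TD.neg'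
    (fun d e p q hp hq => hp.mul hq) (fun i j => ?_) (fun i j => ?_)
  · rw [coeff_map, coeff_C]
    split_ifs
    · exact hq i
    · simp
  · rw [coeff_map, coe_mapRingHom, coeff_map, Polynomial.algebraMap_apply, natDegree_C]

end

end H71.ES
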