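import Pool.Agent.H68.BB.Plc
import Pool.Agent.H68.BB.Red
import Mathlib.RingTheory.Polynomial.Resultant.Basic

/-! # ES.Mod : the model `W_k` of unordered `k`-tuples on the elliptic surface `y^2 = x^3 - 3 a x - 2 b` (definitions only)

`a, b ∈ K[t]`, `deg a ≤ 4 n`, `deg b ≤ 6 n`.  A model point with values in a commutative `K`-algebra `R` is
`(q, x, y, s, t, u, v)`: `q ∈ R[X]` monic of degree `k` (its roots are the base points of the tuple), `x, y ∈ R`, and
`s, t, u, v ∈ R[L]` with the palindromic conditions `Pal`.  With `L = l ^ 2` the matrix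
`T(l) = l s(L) + [[t(L), u(L)], [v(L), - t(L)]]` is `prod s_j^3` times the transfer matrix
`(l - h_0 h_1) ... (l - h_{k-1} h_k) h_k adj ((- l - h_0 h_1) ... (- l - h_{k-1} h_k))` of a polygon `h_0 = diag (1,-1), ..., h_k` of involutions
with `tr (h_{j-1} h_j) = 2 b(t_j) / s_j^3`, `s_j ^ 2 = a(t_j)`.  Equations: `t^2 + u v - L s^2 = prod_j (a(t_j)^3 (L+1)^2 - 4 b(t_j)^2 L)`,
`t(-1) = 2^k prod_j b(t_j)`, and `y^2 = x^3 - 3 A x - 2 t(0)`, `A = prod_j a(t_j)`. -/

namespace H71.ES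

open Polynomial H68.BB

variable {K : Type} [Field K]

/-- a model point with values in `R` -/
@[ext] structure Mdl (R : Type) [CommRing R] where
  q : R[X]
  x : R
  y : R
  s : R[X]
  t : R[X]
  u : R[X]
  v : R[X]

/-- apply a ring homomorphism to a model point -/
noncomputable def Mdl.map {R S : Type} [CommRing R] [CommRing S] (f : R →+* S) (m : Mdl R) : Mdl S :=
  ⟨m.q.map f, f m.x, f m.y, m.s.map f, m.t.map f, m.u.map f, m.v.map f⟩

/-- the norm form `prod_j f(t_j)` over the roots `t_j` of the monic polynomial `q` of degree `k`, for `deg f ≤ N`: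
a polynomial of degree `≤ N` in the coefficients of `q` (columns of the Sylvester matrix) -/
noncomputable def nrm {R : Type} [CommRing R] (k N : ℕ) (q f : R[X]) : R := resultant q f k N

/-- the polynomial `a(X)^3 (L+1)^2 - 4 b(X)^2 L` in `X` with coefficients in `K[L]` -/
noncomputable def Fab (a b : K[X]) : K[X][X] :=
  (a.map C) ^ 3 * C ((X + 1) ^ 2) - 4 * (b.map C) ^ 2 * C X

section
variable {R : Type} [CommRing R] [Algebra K R]

/-- `A = prod_j a(t_j)` -/
noncomputable def NA (n k : ℕ) (a : K[X]) (q : R[X]) : R := nrm k (4 * n) q (a.map (algebraMap K R))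

/-- `B = prod_j b(t_j)` -/
noncomputable def NB (n k : ℕ) (b : K[X]) (q : R[X]) : R := nrm k (6 * n) q (b.map (algebraMap K R))

/-- `prod_j (a(t_j)^3 (L+1)^2 - 4 b(t_j)^2 L)` -/
noncomputable def NN (n k : ℕ) (a b : K[X]) (q : R[X]) : R[X] :=
  nrm k (12 * n) (q.map C) ((Fab a b).map (mapRingHom (algebraMap K R)))

/-- the palindromic conditions -/
structure Pal (k : ℕ) (m : Mdl R) : Prop where
  dt : m.t.natDegree ≤ k
  du : m.u.natDegree ≤ k
  dv : m.v.natDegree ≤ k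
  ds : m.s.natDegree ≤ k - 1
  pt : ∀ i ≤ k, m.t.coeff (k - i) = (-1) ^ k * m.t.coeff i
  pu : ∀ i ≤ k, m.u.coeff (k - i) = -(-1) ^ k * m.u.coeff i
  pv : ∀ i ≤ k, m.v.coeff (k - i) = -(-1) ^ k * m.v.coeff i
  ps : ∀ i ≤ k - 1, m.s.coeff (k - 1 - i) = (-1) ^ k * m.s.coeff i

/-- all conditions except the equation of `y` -/
structure OnM0 (n k : ℕ) (a b : K[X]) (m : Mdl R) : Prop where
  monic : m.q.Monic
  deg : m.q.natDegree = k
  pal : Pal k m
  det : m.t ^ 2 + m.u * m.v - X * m.s ^ 2 = NN n k a b m.q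
  tm1 : m.t.eval (-1) = 2 ^ k * NB n k b m.q

/-- the right hand side of the equation of `y` -/
noncomputable def Mdl.rhs (n k : ℕ) (a : K[X]) (m : Mdl R) : R :=
  m.x ^ 3 - 3 * NA n k a m.q * m.x - 2 * m.t.coeff 0

/-- the model point is on `W_k` -/
structure OnM (n k : ℕ) (a b : K[X]) (m : Mdl R) : Prop extends OnM0 n k a b m where
  eqy : m.y ^ 2 = m.rhs n k a

end

/-- the model point `m` reduces to `m'` at a place -/
structure RdM (π : Place K (Om K)) (m : Mdl (Om K)) (m' : Mdl K) : Prop where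
  q : ∀ i, Rd π.V π.φ (m.q.coeff i) (m'.q.coeff i)
  x : Rd π.V π.φ m.x m'.x
  y : Rd π.V π.φ m.y m'.y
  s : ∀ i, Rd π.V π.φ (m.s.coeff i) (m'.s.coeff i)
  t : ∀ i, Rd π.V π.φ (m.t.coeff i) (m'.t.coeff i)
  u : ∀ i, Rd π.V π.φ (m.u.coeff i) (m'.u.coeff i)
  v : ∀ i, Rd π.V π.φ (m.v.coeff i) (m'.v.coeff i)

/-- the invariants of the torus `u ↦ c u`, `v ↦ c⁻¹ v` are integral at a place -/
structure Bdd (π : Place K (Om K)) (m : Mdl (Om K)) : Prop where
  q : ∀ i, m.q.coeff i ∈ π.V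
  x : m.x ∈ π.V
  y : m.y ∈ π.V
  s : ∀ i, m.s.coeff i ∈ π.V
  t : ∀ i, m.t.coeff i ∈ π.V
  uv : ∀ i j, m.u.coeff i * m.v.coeff j ∈ π.V

end H71.ES
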